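import Mathlib

/-!
# Finite test sets for relations

`test_set`: if a group has a finite set `B` such that every word with value in `B` splits into two
words with values in `B`, then all relations between positive words follow from the short ones, in
every target group.
-/

set_option autoImplicit false

namespace Pool.Agent.V1119.VF

variable {σ : Type*} {H : Type*} {G : Type*} [Group H] [Group G]

/-- signed evaluation -/
def sv (x : σ → H) (w : List (σ × Bool)) : H := (w.map (fun p => cond p.2 (x p.1) (x p.1)⁻¹)).prod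

/-- evaluation of positive words -/
def pv (x : σ → H) (u : List σ) : H := (u.map x).prod

@[simp] theorem sv_nil (x : σ → H) : sv x [] = 1 := rfl
@[simp] theorem pv_nil (x : σ → H) : pv x [] = 1 := rfl
theorem sv_append (x : σ → H) (u v : List (σ × Bool)) : sv x (u ++ v) = sv x u * sv x v := by
  simp [sv]
theorem pv_append (x : σ → H) (u v : List σ) : pv x (u ++ v) = pv x u * pv x v := by
  simp [pv]
theorem sv_cons (x : σ → H) (p : σ × Bool) (v : List (σ × Bool)) :
    sv x (p :: v) = cond p.2 (x p.1) (x p.1)⁻¹ * sv x v := by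
  simp [sv]
theorem pv_cons (x : σ → H) (p : σ) (v : List σ) : pv x (p :: v) = x p * pv x v := by
  simp [pv]

/-- positive words -/
def Pos (w : List (σ × Bool)) : Prop := ∀ p ∈ w, p.2 = true
/-- negative words -/
def Neg (w : List (σ × Bool)) : Prop := ∀ p ∈ w, p.2 = false

/-- four kinds of words -/
inductive Ty
  | P | N | PN | NP
  deriving Fintype, DecidableEq

/-- words of the given kind -/
def Cl : Ty → List (σ × Bool) → Prop
  | .P, w => Pos w
  | .N, w => Neg w
  | .PN, w => ∃ u v, w = u ++ v ∧ Pos u ∧ Neg v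
  | .NP, w => ∃ u v, w = u ++ v ∧ Neg u ∧ Pos v

theorem Pos.append {u v : List (σ × Bool)} (hu : Pos u) (hv : Pos v) : Pos (u ++ v) := by
  intro p hp
  rcases List.mem_append.mp hp with h | h
  · exact hu p h
  · exact hv p h

theorem Neg.append {u v : List (σ × Bool)} (hu : Neg u) (hv : Neg v) : Neg (u ++ v) := by
  intro p hp
  rcases List.mem_append.mp hp with h | h
  · exact hu p h
  · exact hv p h

theorem Pos.left {u v : List (σ × Bool)} (h : Pos (u ++ v)) : Pos u :=
  fun p hp => h p (List.mem_append.mpr (Or.inl hp))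
theorem Pos.right {u v : List (σ × Bool)} (h : Pos (u ++ v)) : Pos v :=
  fun p hp => h p (List.mem_append.mpr (Or.inr hp))
theorem Neg.left {u v : List (σ × Bool)} (h : Neg (u ++ v)) : Neg u :=
  fun p hp => h p (List.mem_append.mpr (Or.inl hp))
theorem Neg.right {u v : List (σ × Bool)} (h : Neg (u ++ v)) : Neg v :=
  fun p hp => h p (List.mem_append.mpr (Or.inr hp))

theorem pn_split {w₁ w₂ : List (σ × Bool)} (h : Cl Ty.PN (w₁ ++ w₂)) :
    (Pos w₁ ∧ Cl Ty.PN w₂) ∨ (Cl Ty.PN w₁ ∧ Neg w₂) := by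
  obtain ⟨u, v, e, hu, hv⟩ := h
  rcases List.append_eq_append_iff.mp e with ⟨a, rfl, rfl⟩ | ⟨c, rfl, rfl⟩
  · exact Or.inl ⟨hu.left, a, v, rfl, hu.right, hv⟩
  · exact Or.inr ⟨⟨u, c, rfl, hu, hv.left⟩, hv.right⟩

theorem np_split {w₁ w₂ : List (σ × Bool)} (h : Cl Ty.NP (w₁ ++ w₂)) :
    (Neg w₁ ∧ Cl Ty.NP w₂) ∨ (Cl Ty.NP w₁ ∧ Pos w₂) := by
  obtain ⟨u, v, e, hu, hv⟩ := h
  rcases List.append_eq_append_iff.mp e with ⟨a, rfl, rfl⟩ | ⟨c, rfl, rfl⟩
  · exact Or.inl ⟨hu.left, a, v, rfl, hu.right, hv⟩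
  · exact Or.inr ⟨⟨u, c, rfl, hu, hv.left⟩, hv.right⟩

theorem pos_pn {u v : List (σ × Bool)} (hu : Pos u) (hv : Cl Ty.PN v) : Cl Ty.PN (u ++ v) := by
  obtain ⟨a, b, rfl, ha, hb⟩ := hv
  exact ⟨u ++ a, b, by simp, hu.append ha, hb⟩
theorem pn_neg {u v : List (σ × Bool)} (hu : Cl Ty.PN u) (hv : Neg v) : Cl Ty.PN (u ++ v) := by
  obtain ⟨a, b, rfl, ha, hb⟩ := hu
  exact ⟨a, b ++ v, by simp, ha, hb.append hv⟩
theorem neg_np {u v : List (σ × Bool)} (hu : Neg u) (hv : Cl Ty.NP v) : Cl Ty.NP (u ++ v) := by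
  obtain ⟨a, b, rfl, ha, hb⟩ := hv
  exact ⟨u ++ a, b, by simp, hu.append ha, hb⟩
theorem np_pos {u v : List (σ × Bool)} (hu : Cl Ty.NP u) (hv : Pos v) : Cl Ty.NP (u ++ v) := by
  obtain ⟨a, b, rfl, ha, hb⟩ := hu
  exact ⟨a, b ++ v, by simp, ha, hb.append hv⟩

theorem cl_split (t : Ty) {w₁ w₂ : List (σ × Bool)} (h : Cl t (w₁ ++ w₂)) :
    ∃ t₁ t₂ : Ty, Cl t₁ w₁ ∧ Cl t₂ w₂ ∧
      ∀ v₁ v₂ : List (σ × Bool), Cl t₁ v₁ → Cl t₂ v₂ → Cl t (v₁ ++ v₂) := by
  cases t with
  | P => exact ⟨.P, .P, Pos.left h, Pos.right h, fun _ _ h1 h2 => Pos.append h1 h2⟩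
  | N => exact ⟨.N, .N, Neg.left h, Neg.right h, fun _ _ h1 h2 => Neg.append h1 h2⟩
  | PN =>
    rcases pn_split h with ⟨h1, h2⟩ | ⟨h1, h2⟩
    · exact ⟨.P, .PN, h1, h2, fun _ _ h1 h2 => pos_pn h1 h2⟩
    · exact ⟨.PN, .N, h1, h2, fun _ _ h1 h2 => pn_neg h1 h2⟩
  | NP =>
    rcases np_split h with ⟨h1, h2⟩ | ⟨h1, h2⟩
    · exact ⟨.N, .NP, h1, h2, fun _ _ h1 h2 => neg_np h1 h2⟩
    · exact ⟨.NP, .P, h1, h2, fun _ _ h1 h2 => np_pos h1 h2⟩

/-- The splitting property. -/
def Splits (x : σ → H) (B : Finset H) : Prop :=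
  ∀ w : List (σ × Bool), 2 ≤ w.length → sv x w ∈ B →
    ∃ w₁ w₂, w = w₁ ++ w₂ ∧ w₁ ≠ [] ∧ w₂ ≠ [] ∧ sv x w₁ ∈ B ∧ sv x w₂ ∈ B

open Classical in
/-- the pairs realised by words of length at most `2^d` -/
noncomputable def DD (x : σ → H) (B : Finset H) (d : ℕ) : Finset (Ty × B) :=
  Finset.univ.filter (fun c => ∃ w, Cl c.1 w ∧ sv x w = c.2.1 ∧ w.length ≤ 2 ^ d)

theorem mem_DD {x : σ → H} {B : Finset H} {d : ℕ} {c : Ty × B} : c ∈ DD x B d ↔
    ∃ w, Cl c.1 w ∧ sv x w = c.2.1 ∧ w.length ≤ 2 ^ d := by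
  classical
  simp [DD]

theorem DD_mono (x : σ → H) (B : Finset H) {d d' : ℕ} (h : d ≤ d') : DD x B d ⊆ DD x B d' := by
  intro c hc
  rw [mem_DD] at hc ⊢
  obtain ⟨w, h1, h2, h3⟩ := hc
  exact ⟨w, h1, h2, h3.trans (Nat.pow_le_pow_right (by norm_num) h)⟩

theorem DD_stable (x : σ → H) (B : Finset H) (hs : Splits x B) {d : ℕ}
    (h : DD x B d = DD x B (d + 1)) :
    ∀ (n : ℕ) (w : List (σ × Bool)) (t : Ty) (hB : sv x w ∈ B), w.length ≤ n → Cl t w →
      (t, (⟨sv x w, hB⟩ : B)) ∈ DD x B d := by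
  intro n
  induction n with
  | zero =>
    intro w t hB hn hw
    rw [mem_DD]
    exact ⟨w, hw, rfl, le_trans hn (Nat.zero_le _)⟩
  | succ n ih =>
    intro w t hB hn hw
    by_cases h2 : 2 ≤ w.length
    · obtain ⟨w₁, w₂, rfl, hne1, hne2, hB1, hB2⟩ := hs w h2 hB
      obtain ⟨t₁, t₂, ht1, ht2, happ⟩ := cl_split t hw
      have hl1 : 1 ≤ w₁.length := List.length_pos_iff.mpr hne1
      have hl2 : 1 ≤ w₂.length := List.length_pos_iff.mpr hne2
      rw [List.length_append] at hn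
      have h1 := ih w₁ t₁ hB1 (by omega) ht1
      have h2 := ih w₂ t₂ hB2 (by omega) ht2
      rw [mem_DD] at h1 h2
      obtain ⟨v₁, a1, a2, a3⟩ := h1
      obtain ⟨v₂, b1, b2, b3⟩ := h2
      rw [h, mem_DD]
      refine ⟨v₁ ++ v₂, happ _ _ a1 b1, ?_, ?_⟩
      · rw [sv_append, a2, b2]
        show sv x w₁ * sv x w₂ = sv x (w₁ ++ w₂)
        rw [sv_append]
      · rw [List.length_append, pow_succ]
        omega
    · rw [mem_DD]
      refine ⟨w, hw, rfl, ?_⟩
      have : 1 ≤ 2 ^ d := Nat.one_le_two_pow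
      omega

/-- Every realisable value in `B` is realised by a short word. -/
theorem short (x : σ → H) (B : Finset H) (hs : Splits x B) (t : Ty) (w : List (σ × Bool))
    (hw : Cl t w) (hB : sv x w ∈ B) :
    ∃ w', Cl t w' ∧ sv x w' = sv x w ∧ w'.length ≤ 2 ^ (4 * B.card) := by
  have hcard : Fintype.card (Ty × B) = 4 * B.card := by
    rw [Fintype.card_prod, Fintype.card_coe]; rfl
  by_contra hcon
  have hnot : (t, (⟨sv x w, hB⟩ : B)) ∉ DD x B (4 * B.card) := by
    intro h
    rw [mem_DD] at h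
    obtain ⟨w', h1, h2, h3⟩ := h
    exact hcon ⟨w', h1, h2, h3⟩
  have hne : ∀ d ≤ 4 * B.card, DD x B d ≠ DD x B (d + 1) := by
    intro d hd heq
    exact hnot (DD_mono x B hd (DD_stable x B hs heq _ w t hB le_rfl hw))
  have hgrow : ∀ d ≤ 4 * B.card + 1, d ≤ (DD x B d).card := by
    intro d
    induction d with
    | zero => intro _; omega
    | succ d ih =>
      intro hd
      have h1 := ih (by omega)
      have h2 : DD x B d ⊂ DD x B (d + 1) :=
        (DD_mono x B (Nat.le_succ d)).ssubset_of_ne (hne d (by omega))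
      have h3 := Finset.card_lt_card h2
      omega
  have h1 := hgrow (4 * B.card + 1) le_rfl
  have h2 := Finset.card_le_univ (DD x B (4 * B.card + 1))
  rw [hcard] at h2
  omega

/-! ### positive and negative words -/

/-- positive word -/
def up (u : List σ) : List (σ × Bool) := u.map (fun i => (i, true))
/-- inverse of a positive word -/
def dn (u : List σ) : List (σ × Bool) := (u.map (fun i => (i, false))).reverse

theorem sv_up (x : σ → H) (u : List σ) : sv x (up u) = pv x u := by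
  simp [sv, up, pv, Function.comp_def]

theorem sv_dn (x : σ → H) (u : List σ) : sv x (dn u) = (pv x u)⁻¹ := by
  induction u with
  | nil => simp [dn]
  | cons i u ih =>
    have e : dn (i :: u) = dn u ++ [(i, false)] := by simp [dn]
    rw [e, sv_append, ih, pv_cons]
    simp [sv]

@[simp] theorem length_up (u : List σ) : (up u).length = u.length := by simp [up]
@[simp] theorem length_dn (u : List σ) : (dn u).length = u.length := by simp [dn]

theorem Pos.exists_up {w : List (σ × Bool)} (h : Pos w) : ∃ u : List σ, w = up u := by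
  induction w with
  | nil => exact ⟨[], rfl⟩
  | cons p w ih =>
    obtain ⟨u, rfl⟩ := ih (fun q hq => h q (List.mem_cons_of_mem _ hq))
    refine ⟨p.1 :: u, ?_⟩
    have h1 : p.2 = true := h p List.mem_cons_self
    show p :: up u = (p.1, true) :: up u
    rw [← h1]

theorem Neg.exists_dn {w : List (σ × Bool)} (h : Neg w) : ∃ u : List σ, w = dn u := by
  induction w using List.reverseRecOn with
  | nil => exact ⟨[], rfl⟩
  | append_singleton w p ih =>
    obtain ⟨u, rfl⟩ := ih h.left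
    refine ⟨p.1 :: u, ?_⟩
    have h1 : p.2 = false := h p (by simp)
    have e : dn (p.1 :: u) = dn u ++ [(p.1, false)] := by simp [dn]
    rw [e, ← h1]

theorem pos_up (u : List σ) : Pos (up u) := by
  intro p hp
  simp only [up, List.mem_map] at hp
  obtain ⟨_, _, rfl⟩ := hp
  rfl

theorem neg_dn (u : List σ) : Neg (dn u) := by
  intro p hp
  simp only [dn, List.mem_reverse, List.mem_map] at hp
  obtain ⟨_, _, rfl⟩ := hp
  rfl

/-- relations between short positive words pass to `y` -/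
def Rel (x : σ → H) (y : σ → G) (N : ℕ) : Prop :=
  ∀ u v : List σ, u.length ≤ N → v.length ≤ N → pv x u = pv x v → pv y u = pv y v

section
variable {x : σ → H} {y : σ → G} {N : ℕ}

theorem small_P (h : Rel x y N) {w w' : List (σ × Bool)} (hw : Pos w) (hw' : Pos w')
    (h1 : w.length ≤ N) (h2 : w'.length ≤ N) (e : sv x w = sv x w') : sv y w = sv y w' := by
  obtain ⟨u, rfl⟩ := hw.exists_up
  obtain ⟨v, rfl⟩ := hw'.exists_up
  rw [sv_up, sv_up] at e ⊢
  rw [length_up] at h1 h2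
  exact h u v h1 h2 e

theorem small_N (h : Rel x y N) {w w' : List (σ × Bool)} (hw : Neg w) (hw' : Neg w')
    (h1 : w.length ≤ N) (h2 : w'.length ≤ N) (e : sv x w = sv x w') : sv y w = sv y w' := by
  obtain ⟨u, rfl⟩ := hw.exists_dn
  obtain ⟨v, rfl⟩ := hw'.exists_dn
  rw [sv_dn, sv_dn] at e ⊢
  rw [length_dn] at h1 h2
  rw [h u v h1 h2 (inv_injective e)]

theorem small_M (h : Rel x y N) {w z : List (σ × Bool)} (hw : Cl Ty.PN w) (hz : Cl Ty.NP z)
    (hl : w.length + z.length ≤ N) (e : sv x w = sv x z) : sv y w = sv y z := by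
  obtain ⟨w1, w2, rfl, hw1, hw2⟩ := hw
  obtain ⟨z1, z2, rfl, hz1, hz2⟩ := hz
  obtain ⟨a, rfl⟩ := hw1.exists_up
  obtain ⟨b, rfl⟩ := hw2.exists_dn
  obtain ⟨c, rfl⟩ := hz1.exists_dn
  obtain ⟨d, rfl⟩ := hz2.exists_up
  rw [sv_append, sv_append, sv_up, sv_dn, sv_up, sv_dn] at e ⊢
  simp only [List.length_append, length_up, length_dn] at hl
  have e1 : pv x (c ++ a) = pv x (d ++ b) := by
    rw [pv_append, pv_append, ← mul_inv_eq_iff_eq_mul, mul_assoc, e, mul_inv_cancel_left]
  have e2 := h (c ++ a) (d ++ b) (by simp; omega) (by simp; omega) e1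
  rw [pv_append, pv_append, ← mul_inv_eq_iff_eq_mul, mul_assoc] at e2
  rw [← e2, inv_mul_cancel_left]

theorem claim1 (h : Rel x y N) (B : Finset H) (hs : Splits x B)
    (hN : 3 * 2 ^ (4 * B.card) ≤ N) (t : Ty) (ht : t = Ty.P ∨ t = Ty.N) :
    ∀ (n : ℕ) (w : List (σ × Bool)), w.length ≤ n → Cl t w → sv x w ∈ B →
      ∀ w', Cl t w' → w'.length ≤ 2 ^ (4 * B.card) → sv x w' = sv x w → sv y w' = sv y w := by
  have hone : 1 ≤ 2 ^ (4 * B.card) := Nat.one_le_two_pow
  have hsm : ∀ w w' : List (σ × Bool), Cl t w → Cl t w' → w.length ≤ N → w'.length ≤ N →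
      sv x w = sv x w' → sv y w = sv y w' := by
    intro w w' hw hw' h1 h2 e
    rcases ht with rfl | rfl
    · exact small_P h hw hw' h1 h2 e
    · exact small_N h hw hw' h1 h2 e
  have happ : ∀ w w' : List (σ × Bool), Cl t w → Cl t w' → Cl t (w ++ w') := by
    intro w w' hw hw'
    rcases ht with rfl | rfl
    · exact Pos.append hw hw'
    · exact Neg.append hw hw'
  have hsp : ∀ w w' : List (σ × Bool), Cl t (w ++ w') → Cl t w ∧ Cl t w' := by
    intro w w' hw
    rcases ht with rfl | rfl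
    · exact ⟨Pos.left hw, Pos.right hw⟩
    · exact ⟨Neg.left hw, Neg.right hw⟩
  intro n
  induction n with
  | zero =>
    intro w hn hw _ w' hw' hl e
    exact hsm _ _ hw' hw (by omega) (by omega) e
  | succ n ih =>
    intro w hn hw hB w' hw' hl e
    by_cases h2 : 2 ≤ w.length
    · obtain ⟨w₁, w₂, rfl, hne1, hne2, hB1, hB2⟩ := hs w h2 hB
      obtain ⟨hw1, hw2⟩ := hsp _ _ hw
      have hl1 : 1 ≤ w₁.length := List.length_pos_iff.mpr hne1
      have hl2 : 1 ≤ w₂.length := List.length_pos_iff.mpr hne2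
      rw [List.length_append] at hn
      obtain ⟨p₁, a1, a2, a3⟩ := short x B hs t w₁ hw1 hB1
      obtain ⟨p₂, b1, b2, b3⟩ := short x B hs t w₂ hw2 hB2
      have c1 := ih w₁ (by omega) hw1 hB1 p₁ a1 a3 a2
      have c2 := ih w₂ (by omega) hw2 hB2 p₂ b1 b3 b2
      have c3 := hsm w' (p₁ ++ p₂) hw' (happ _ _ a1 b1) (by omega)
        (by rw [List.length_append]; omega) (by rw [e, sv_append, sv_append, a2, b2])
      rw [c3, sv_append, sv_append, c1, c2]
    · exact hsm _ _ hw' hw (by omega) (by omega) e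

/-- formal inverse -/
def invw (w : List (σ × Bool)) : List (σ × Bool) := (w.map (fun p => (p.1, !p.2))).reverse

theorem sv_invw (x : σ → H) (w : List (σ × Bool)) : sv x (invw w) = (sv x w)⁻¹ := by
  induction w with
  | nil => simp [invw]
  | cons p w ih =>
    have e : invw (p :: w) = invw w ++ [(p.1, !p.2)] := by simp [invw]
    rw [e, sv_append, ih, sv_cons x p w, mul_inv_rev]
    congr 1
    rcases p with ⟨i, b⟩
    cases b <;> simp [sv]

theorem Pos.invw {w : List (σ × Bool)} (h : Pos w) : Neg (invw w) := by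
  intro p hp
  simp only [VF.invw, List.mem_reverse, List.mem_map] at hp
  obtain ⟨q, hq, rfl⟩ := hp
  simp [h q hq]

theorem Neg.invw {w : List (σ × Bool)} (h : Neg w) : Pos (invw w) := by
  intro p hp
  simp only [VF.invw, List.mem_reverse, List.mem_map] at hp
  obtain ⟨q, hq, rfl⟩ := hp
  simp [h q hq]

theorem claim2 (h : Rel x y N) (B : Finset H) (hs : Splits x B)
    (hN : 3 * 2 ^ (4 * B.card) ≤ N) :
    ∀ (n : ℕ) (w : List (σ × Bool)), w.length ≤ n → Cl Ty.PN w → sv x w ∈ B →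
      ∀ z, Cl Ty.NP z → z.length ≤ 2 ^ (4 * B.card) → sv x w = sv x z → sv y w = sv y z := by
  have hone : 1 ≤ 2 ^ (4 * B.card) := Nat.one_le_two_pow
  intro n
  induction n with
  | zero =>
    intro w hn hw _ z hz hl e
    exact small_M h hw hz (by omega) e
  | succ n ih =>
    intro w hn hw hB z hz hl e
    by_cases h2 : 2 ≤ w.length
    · obtain ⟨w₁, w₂, rfl, hne1, hne2, hB1, hB2⟩ := hs w h2 hB
      have hl1 : 1 ≤ w₁.length := List.length_pos_iff.mpr hne1
      have hl2 : 1 ≤ w₂.length := List.length_pos_iff.mpr hne2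
      rw [List.length_append] at hn
      rw [sv_append] at e
      rcases pn_split hw with ⟨hw1, hw2⟩ | ⟨hw1, hw2⟩
      · obtain ⟨p₁, a1, a2, a3⟩ := short x B hs Ty.P w₁ hw1 hB1
        obtain ⟨m₂, b1, b2, b3⟩ := short x B hs Ty.PN w₂ hw2 hB2
        have hval : sv x (invw w₁ ++ z) = sv x w₂ := by
          rw [sv_append, sv_invw, ← e, inv_mul_cancel_left]
        obtain ⟨z₂, d1, d2, d3⟩ := short x B hs Ty.NP (invw w₁ ++ z) (neg_np hw1.invw hz)
          (by rw [hval]; exact hB2)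
        rw [hval] at d2
        have c1 := claim1 h B hs hN Ty.P (Or.inl rfl) _ w₁ le_rfl hw1 hB1 p₁ a1 a3 a2
        have c2 := ih w₂ (by omega) hw2 hB2 z₂ d1 d3 d2.symm
        have c3 := small_M h b1 d1 (by omega) (by rw [b2, d2])
        have c4 := small_M h (pos_pn a1 b1) hz (by rw [List.length_append]; omega)
          (by rw [sv_append, a2, b2, e])
        rw [sv_append] at c4 ⊢
        rw [← c4, c1, c2, c3]
      · obtain ⟨p₂, a1, a2, a3⟩ := short x B hs Ty.N w₂ hw2 hB2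
        obtain ⟨m₁, b1, b2, b3⟩ := short x B hs Ty.PN w₁ hw1 hB1
        have hval : sv x (z ++ invw w₂) = sv x w₁ := by
          rw [sv_append, sv_invw, ← e, mul_inv_cancel_right]
        obtain ⟨z₁, d1, d2, d3⟩ := short x B hs Ty.NP (z ++ invw w₂) (np_pos hz hw2.invw)
          (by rw [hval]; exact hB1)
        rw [hval] at d2
        have c1 := claim1 h B hs hN Ty.N (Or.inr rfl) _ w₂ le_rfl hw2 hB2 p₂ a1 a3 a2
        have c2 := ih w₁ (by omega) hw1 hB1 z₁ d1 d3 d2.symm
        have c3 := small_M h b1 d1 (by omega) (by rw [b2, d2])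
        have c4 := small_M h (pn_neg b1 a1) hz (by rw [List.length_append]; omega)
          (by rw [sv_append, a2, b2, e])
        rw [sv_append] at c4 ⊢
        rw [← c4, c1, c2, c3]
    · exact small_M h hw hz (by omega) e

/-- **Test sets**: the relations between short words imply all relations. -/
theorem test_set (h : Rel x y N) (B : Finset H) (h1 : (1 : H) ∈ B) (hs : Splits x B)
    (hN : 3 * 2 ^ (4 * B.card) ≤ N) (u v : List σ) (e : pv x u = pv x v) : pv y u = pv y v := by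
  have hval : sv x (up u ++ dn v) = 1 := by
    rw [sv_append, sv_up, sv_dn, e, mul_inv_cancel]
  have := claim2 h B hs hN _ (up u ++ dn v) le_rfl ⟨up u, dn v, rfl, pos_up u, neg_dn v⟩
    (by rw [hval]; exact h1) [] ⟨[], [], rfl, by intro p hp; simp at hp, by intro p hp; simp at hp⟩
    (by simp) (by rw [hval]; rfl)
  rw [sv_append, sv_up, sv_dn, sv_nil, mul_inv_eq_one] at this
  exact this

end

end Pool.Agent.V1119.VF
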