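import Mathlib
import Pool.Agent.V1119.VF.Test

/-!
# Splitting in virtually free groups
-/

set_option autoImplicit false

namespace Pool.Agent.V1119.VF

open FreeGroup

section Free
variable {ι : Type*} [DecidableEq ι]

theorem common {α : Type*} (X Y : List α) : ∃ C X' Y', X = C ++ X' ∧ Y = C ++ Y' ∧
    ∀ a ∈ X'.head?, ∀ b ∈ Y'.head?, a ≠ b := by
  induction X generalizing Y with
  | nil => exact ⟨[], [], Y, rfl, rfl, by simp⟩
  | cons a X ih =>
    rcases Y with _ | ⟨b, Y⟩
    · exact ⟨[], a :: X, [], rfl, rfl, by simp⟩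
    · by_cases hab : a = b
      · subst hab
        obtain ⟨C, X', Y', rfl, rfl, h⟩ := ih Y
        exact ⟨a :: C, X', Y', rfl, rfl, h⟩
      · exact ⟨[], a :: X, b :: Y, rfl, rfl, by simpa using hab⟩

theorem norm_mk_red {l : List (ι × Bool)} (h : FreeGroup.IsReduced l) :
    FreeGroup.norm (mk l) = l.length := by
  rw [FreeGroup.norm, toWord_mk, h.reduce_eq]

theorem red_right {α : Type*} {l m : List (α × Bool)} (h : FreeGroup.IsReduced (l ++ m)) :
    FreeGroup.IsReduced m := by
  unfold FreeGroup.IsReduced at *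
  rw [List.isChain_append] at h
  exact h.2.1

/-- If `p` is an initial segment of the word of `y` but not of the word of `x`, then every path
from `x` to `y` passes through `p`. -/
theorem sep (x y : FreeGroup ι) (p : List (ι × Bool)) (hy : p <+: y.toWord)
    (hx : ¬ p <+: x.toWord) :
    FreeGroup.norm y - p.length ≤ FreeGroup.norm (x⁻¹ * y) := by
  obtain ⟨C, X', Y', hX, hY, hne⟩ := common x.toWord y.toWord
  have hC : C.length < p.length := by
    by_contra hcon
    push Not at hcon
    apply hx
    have h1 : C <+: y.toWord := ⟨Y', hY.symm⟩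
    have h2 : p <+: C := List.prefix_of_prefix_length_le hy h1 hcon
    exact h2.trans ⟨X', hX.symm⟩
  have hrX : FreeGroup.IsReduced X' := by
    have := isReduced_toWord (x := x)
    rw [hX] at this
    exact red_right this
  have hrY : FreeGroup.IsReduced Y' := by
    have := isReduced_toWord (x := y)
    rw [hY] at this
    exact red_right this
  have hprod : x⁻¹ * y = mk (invRev X' ++ Y') := by
    rw [← mk_toWord (x := x), ← mk_toWord (x := y), hX, hY, ← mul_mk, ← mul_mk, mul_inv_rev,
      ← mul_mk, ← inv_mk]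
    group
  have hred : FreeGroup.IsReduced (invRev X' ++ Y') := by
    have hiX : FreeGroup.IsReduced (invRev X') := by
      rw [isReduced_iff_reduce_eq, reduce_invRev, hrX.reduce_eq]
    unfold FreeGroup.IsReduced at *
    rw [List.isChain_append]
    refine ⟨hiX, hrY, ?_⟩
    intro a ha b hb hab
    rw [invRev, List.getLast?_reverse, List.head?_map] at ha
    rcases hh : X'.head? with _ | z
    · rw [hh] at ha; simp at ha
    · rw [hh] at ha
      simp only [Option.map_some, Option.mem_def, Option.some.injEq] at ha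
      have hzb := hne z hh b hb
      subst ha
      simp only at hab ⊢
      rcases z with ⟨z1, z2⟩
      rcases b with ⟨b1, b2⟩
      simp only at hab ⊢
      subst hab
      cases z2 <;> cases b2 <;> simp_all
  rw [hprod, norm_mk_red hred, List.length_append]
  have : FreeGroup.norm y = C.length + Y'.length := by
    rw [FreeGroup.norm, hY, List.length_append]
  omega

theorem norm_prefix (y : FreeGroup ι) (p : List (ι × Bool)) (hy : p <+: y.toWord) :
    FreeGroup.norm ((mk p)⁻¹ * y) = FreeGroup.norm y - p.length := by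
  obtain ⟨t, ht⟩ := hy
  have h1 : (mk p)⁻¹ * y = mk t := by
    rw [← mk_toWord (x := y), ← ht, ← mul_mk, inv_mul_cancel_left]
  have hr : FreeGroup.IsReduced t := by
    have := isReduced_toWord (x := y)
    rw [← ht] at this
    exact red_right this
  rw [h1, norm_mk_red hr, FreeGroup.norm, ← ht, List.length_append]
  omega

/-- A path with short steps between two points passes near the middle of the geodesic. -/
theorem path (n K ℓ : ℕ) (f : ℕ → FreeGroup ι) (h0 : f 0 = 1)
    (hstep : ∀ i < n, FreeGroup.norm ((f i)⁻¹ * f (i + 1)) ≤ ℓ) (hn : 2 ≤ n)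
    (hK : 3 * ℓ + 2 ≤ K) (hfn : FreeGroup.norm (f n) ≤ K) :
    ∃ i, 1 ≤ i ∧ i < n ∧ FreeGroup.norm (f i) ≤ K ∧ FreeGroup.norm ((f i)⁻¹ * f n) ≤ K := by
  by_cases hsmall : FreeGroup.norm (f n) ≤ 2 * ℓ + 2
  · have h1 := hstep 0 (by omega)
    rw [h0, inv_one, one_mul, zero_add] at h1
    refine ⟨1, le_rfl, by omega, by omega, ?_⟩
    refine (FreeGroup.norm_mul_le _ _).trans ?_
    rw [norm_inv_eq]
    omega
  push Not at hsmall
  set W := (f n).toWord with hW
  have hWl : FreeGroup.norm (f n) = W.length := rfl
  set m := W.length / 2 with hm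
  set p := W.take m with hp
  have hpl : p.length = m := by
    rw [hp, List.length_take]
    omega
  have hpn : p <+: (f n).toWord := List.take_prefix _ _
  have hp0 : ¬ p <+: (f 0).toWord := by
    intro h
    rw [h0, toWord_one, List.prefix_nil] at h
    rw [h] at hpl
    simp at hpl
    omega
  -- the first index such that `p` is a prefix
  obtain ⟨i, hi1, hi2, hi3⟩ : ∃ i, i < n ∧ ¬ p <+: (f i).toWord ∧ p <+: (f (i + 1)).toWord := by
    by_contra hcon
    push Not at hcon
    have : ∀ i ≤ n, ¬ p <+: (f i).toWord := by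
      intro i
      induction i with
      | zero => intro _; exact hp0
      | succ i ih => intro hi; exact hcon i (by omega) (ih (by omega))
    exact this n le_rfl hpn
  have h1 := sep (f i) (f (i + 1)) p hi3 hi2
  have h2 := norm_prefix (f (i + 1)) p hi3
  have h3 := hstep i hi1
  have h4 : FreeGroup.norm ((mk p)⁻¹ * f (i + 1)) ≤ ℓ := by omega
  have h5 := norm_prefix (f n) p hpn
  have hne : i + 1 ≠ n := by
    intro h
    rw [h, h5] at h4
    omega
  have hmp : FreeGroup.norm (mk p) ≤ m := by
    rw [← hpl]
    exact norm_mk_le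
  refine ⟨i + 1, by omega, by omega, ?_, ?_⟩
  · have h6 : f (i + 1) = mk p * ((mk p)⁻¹ * f (i + 1)) := by group
    rw [h6]
    refine (FreeGroup.norm_mul_le _ _).trans ?_
    omega
  · have h6 : (f (i + 1))⁻¹ * f n = ((mk p)⁻¹ * f (i + 1))⁻¹ * ((mk p)⁻¹ * f n) := by group
    rw [h6]
    refine (FreeGroup.norm_mul_le _ _).trans ?_
    rw [norm_inv_eq]
    omega

end Free

set_option linter.unusedSectionVars false

section Virt

variable {H : Type*} [Group H] (F : Subgroup H) {ι : Type*} [DecidableEq ι]
  (e : F ≃* FreeGroup ι)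

/-- the right cosets -/
abbrev Q := Quotient (QuotientGroup.rightRel F)

/-- the class of an element -/
def cls (h : H) : Q F := Quotient.mk _ h

/-- a transversal -/
noncomputable def tr (q : Q F) : H := Quotient.out q

theorem cls_tr (q : Q F) : cls F (tr F q) = q := Quotient.out_eq q

theorem cls_eq {h h' : H} : cls F h = cls F h' ↔ h' * h⁻¹ ∈ F := by
  unfold cls
  rw [Quotient.eq]
  exact QuotientGroup.rightRel_apply

theorem mem_F (h : H) : h * (tr F (cls F h))⁻¹ ∈ F := by
  rw [← cls_eq]
  exact cls_tr F _

/-- the `F`-coordinate -/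
noncomputable def co (h : H) : FreeGroup ι := e ⟨h * (tr F (cls F h))⁻¹, mem_F F h⟩

theorem co_eq_iff (h : H) : ((e.symm (co F e h) : F) : H) * tr F (cls F h) = h := by
  unfold co
  rw [MulEquiv.symm_apply_apply]
  simp

theorem cls_mul (f : F) (h : H) : cls F ((f : H) * h) = cls F h := by
  rw [cls_eq]
  simp

theorem co_mul (f : F) (h : H) : co F e ((f : H) * h) = e f * co F e h := by
  unfold co
  rw [← _root_.map_mul]
  congr 1
  apply Subtype.ext
  simp only [Subgroup.coe_mul, cls_mul]
  group

theorem co_tr (q : Q F) : co F e (tr F q) = 1 := by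
  unfold co
  rw [← _root_.map_one e]
  congr 1
  apply Subtype.ext
  simp [cls_tr]

theorem co_step (q s : H) : co F e (q * s) = co F e q * co F e (tr F (cls F q) * s) := by
  conv_lhs => rw [← co_eq_iff F e q, mul_assoc]
  rw [co_mul, MulEquiv.apply_symm_apply]

theorem cls_step (q s : H) : cls F (q * s) = cls F (tr F (cls F q) * s) := by
  have h1 : q * s = ((⟨q * (tr F (cls F q))⁻¹, mem_F F q⟩ : F) : H) * (tr F (cls F q) * s) := by
    simp only
    group
  conv_lhs => rw [h1]
  rw [cls_mul]

variable [Fintype (Q F)]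

/-- a length function -/
noncomputable def lam (s : H) : ℕ :=
  Finset.univ.sup (fun a : Q F => FreeGroup.norm (co F e (tr F a * s)))

theorem le_lam (s : H) (a : Q F) : FreeGroup.norm (co F e (tr F a * s)) ≤ lam F e s :=
  Finset.le_sup (f := fun a : Q F => FreeGroup.norm (co F e (tr F a * s))) (Finset.mem_univ a)

theorem lam_mul (s s' : H) : lam F e (s * s') ≤ lam F e s + lam F e s' := by
  unfold lam
  apply Finset.sup_le
  intro a _
  rw [← mul_assoc, co_step]
  refine (FreeGroup.norm_mul_le _ _).trans ?_
  exact Nat.add_le_add (le_lam F e s a) (le_lam F e s' _)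

theorem co_inv (s : H) (a : Q F) :
    co F e (tr F a * s⁻¹) = (co F e (tr F (cls F (tr F a * s⁻¹)) * s))⁻¹ := by
  have h1 := co_step F e (tr F a * s⁻¹) s
  rw [inv_mul_cancel_right, co_tr] at h1
  exact eq_inv_of_mul_eq_one_left h1.symm

theorem lam_inv (s : H) : lam F e s⁻¹ = lam F e s := by
  have key : ∀ s : H, lam F e s⁻¹ ≤ lam F e s := by
    intro s
    unfold lam
    apply Finset.sup_le
    intro a _
    rw [co_inv, norm_inv_eq]
    exact le_lam F e s _
  refine le_antisymm (key s) ?_
  have := key s⁻¹
  rwa [inv_inv] at this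

/-- the balls -/
def Ball (K : ℕ) : Set H := {h | ∃ a : Q F, FreeGroup.norm (co F e (tr F a * h)) ≤ K}

theorem one_mem_Ball (K : ℕ) : (1 : H) ∈ Ball F e K :=
  ⟨cls F 1, by rw [mul_one, co_tr]; simp⟩

/-- coding of the ball -/
noncomputable def code (K : ℕ) (h : Ball F e K) : Q F × Q F × (Fin K → Option (ι × Bool)) :=
  (h.2.choose, cls F (tr F h.2.choose * h.1), fun i => (co F e (tr F h.2.choose * h.1)).toWord[i.1]?)

theorem code_injective (K : ℕ) : Function.Injective (code F e K) := by
  intro h h' heq
  have hs := h.2.choose_spec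
  have hs' := h'.2.choose_spec
  unfold code at heq
  simp only [Prod.mk.injEq] at heq
  obtain ⟨h1, h2, h3⟩ := heq
  rw [← h1] at h2 h3 hs'
  set a := h.2.choose
  have h4 : (co F e (tr F a * h.1)).toWord = (co F e (tr F a * h'.1)).toWord := by
    apply List.ext_getElem?
    intro i
    by_cases hi : i < K
    · exact congrFun h3 ⟨i, hi⟩
    · rw [List.getElem?_eq_none, List.getElem?_eq_none]
      · exact hs'.trans (by omega)
      · exact hs.trans (by omega)
  have h5 := toWord_injective h4
  have h6 := co_eq_iff F e (tr F a * h.1)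
  have h7 := co_eq_iff F e (tr F a * h'.1)
  rw [h5, h2, h7] at h6
  apply Subtype.ext
  exact (mul_left_cancel h6).symm

variable [Fintype ι]

theorem ball_finite (K : ℕ) : (Ball F e K).Finite := by
  have : Finite (Ball F e K) := Finite.of_injective _ (code_injective F e K)
  exact Set.toFinite _

/-- the ball as a finite set -/
noncomputable def BallF (K : ℕ) : Finset H := (ball_finite F e K).toFinset

theorem mem_BallF {K : ℕ} {h : H} : h ∈ BallF F e K ↔ h ∈ Ball F e K := by
  unfold BallF
  rw [Set.Finite.mem_toFinset]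

theorem card_BallF (K : ℕ) : (BallF F e K).card ≤
    Fintype.card (Q F) * (Fintype.card (Q F) * (2 * Fintype.card ι + 1) ^ K) := by
  classical
  have h1 : (BallF F e K).card = Nat.card (Ball F e K) := by
    unfold BallF
    rw [← Set.ncard_eq_toFinset_card (Ball F e K) (ball_finite F e K)]
    rfl
  rw [h1]
  have h2 := Nat.card_le_card_of_injective _ (code_injective F e K)
  refine h2.trans ?_
  rw [Nat.card_eq_fintype_card, Fintype.card_prod, Fintype.card_prod, Fintype.card_fun,
    Fintype.card_option, Fintype.card_prod, Fintype.card_bool, Fintype.card_fin, mul_comm _ 2]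

/-- The splitting property of the balls. -/
theorem ball_splits {σ : Type*} (x : σ → H) (ℓ K : ℕ) (hx : ∀ i, lam F e (x i) ≤ ℓ)
    (hK : 3 * ℓ + 2 ≤ K) : Splits x (BallF F e K) := by
  intro w hw hB
  rw [mem_BallF] at hB
  obtain ⟨a, ha⟩ := hB
  -- the path
  set q : ℕ → H := fun i => tr F a * sv x (w.take i) with hq
  have hstep : ∀ i < w.length, FreeGroup.norm ((co F e (q i))⁻¹ * co F e (q (i + 1))) ≤ ℓ := by
    intro i hi
    have h1 : q (i + 1) = q i * cond (w[i]).2 (x (w[i]).1) (x (w[i]).1)⁻¹ := by
      simp only [hq]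
      rw [List.take_add_one, List.getElem?_eq_getElem hi]
      simp only [Option.toList_some]
      rw [sv_append, mul_assoc]
      congr 1
      simp [sv]
    have h2 := co_step F e (q i) (cond (w[i]).2 (x (w[i]).1) (x (w[i]).1)⁻¹)
    rw [h1, h2, inv_mul_cancel_left]
    refine (le_lam F e _ _).trans ?_
    rcases w[i] with ⟨j, b⟩
    cases b
    · simp only [cond_false]
      rw [lam_inv]
      exact hx j
    · exact hx j
  obtain ⟨i, hi1, hi2, hi3, hi4⟩ := path w.length K ℓ (fun i => co F e (q i))
    (by simp [hq, co_tr]) hstep hw hK (by simpa [hq] using ha)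
  refine ⟨w.take i, w.drop i, (List.take_append_drop i w).symm, ?_, ?_, ?_, ?_⟩
  · intro h
    rw [List.take_eq_nil_iff] at h
    rcases h with h | h
    · omega
    · rw [h] at hi2; simp at hi2
  · intro h
    rw [List.drop_eq_nil_iff] at h
    omega
  · rw [mem_BallF]
    exact ⟨a, hi3⟩
  · rw [mem_BallF]
    refine ⟨cls F (q i), ?_⟩
    have h1 : q w.length = q i * sv x (w.drop i) := by
      simp only [hq]
      rw [mul_assoc, ← sv_append, List.take_append_drop, List.take_length]
    have h2 := co_step F e (q i) (sv x (w.drop i))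
    rw [← h1] at h2
    have h3 : co F e (tr F (cls F (q i)) * sv x (w.drop i)) =
        (co F e (q i))⁻¹ * co F e (q w.length) := by
      rw [h2, inv_mul_cancel_left]
    rw [h3]
    exact hi4

end Virt

end Pool.Agent.V1119.VF
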