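import Mathlib
import Pool.Agent.V1119.VF.Geo

/-!
# Decidability
-/

set_option autoImplicit false

namespace Pool.Agent.V1119.VF

section Comp

theorem computable_any {α β : Type} [Primcodable α] [Primcodable β] {l : α → List β}
    {P : α → β → Bool} (hl : Computable l) (hP : Computable₂ P) :
    Computable (fun a => (l a).any (P a)) := by
  have h : Computable (fun a : α => Nat.rec (motive := fun _ => Bool) false
      (fun m b => b || (((l a)[m]?).map (P a)).getD false) (l a).length) := by
    refine Computable.nat_rec (Computable.list_length.comp hl) (Computable.const false)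
      (h := fun a (p : ℕ × Bool) => p.2 || (((l a)[p.1]?).map (P a)).getD false) ?_
    have h1 : Computable (fun q : α × (ℕ × Bool) => (l q.1)[q.2.1]?) :=
      Computable.list_getElem?.comp (hl.comp Computable.fst)
        (Computable.fst.comp Computable.snd)
    have h2 : Computable (fun q : α × (ℕ × Bool) => ((l q.1)[q.2.1]?).map (P q.1)) :=
      Computable.option_map h1 (hP.comp (Computable.fst.comp Computable.fst) Computable.snd).to₂
    have h3 : Computable (fun q : α × (ℕ × Bool) => (((l q.1)[q.2.1]?).map (P q.1)).getD false) :=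
      Computable.option_getD h2 (Computable.const false)
    exact (Primrec.or.to_comp.comp (Computable.snd.comp Computable.snd) h3).to₂
  refine h.of_eq fun a => ?_
  have key : ∀ n, Nat.rec (motive := fun _ => Bool) false
      (fun m b => b || (((l a)[m]?).map (P a)).getD false) n = ((l a).take n).any (P a) := by
    intro n
    induction n with
    | zero => simp
    | succ n ih =>
      simp only [ih, List.take_add_one, List.any_append]
      congr 1
      cases (l a)[n]? <;> simp
  rw [key, List.take_length]

theorem computable_all {α β : Type} [Primcodable α] [Primcodable β] {l : α → List β}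
    {P : α → β → Bool} (hl : Computable l) (hP : Computable₂ P) :
    Computable (fun a => (l a).all (P a)) := by
  have h1 : Computable₂ (fun a b => !(P a b)) := (Primrec.not.to_comp.comp hP).to₂
  refine (Primrec.not.to_comp.comp (computable_any hl h1)).of_eq fun a => ?_
  induction l a with
  | nil => rfl
  | cons b t ih => simp [← ih]

/-- all words of length at most `N` in the letters below `n` -/
def allW (n : ℕ) : ℕ → List (List ℕ)
  | 0 => [[]]
  | N + 1 => [] :: (allW n N).flatMap (fun w => (List.range n).map (fun i => i :: w))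

theorem mem_allW {n N : ℕ} {w : List ℕ} (h : w.length ≤ N) (hw : ∀ i ∈ w, i < n) :
    w ∈ allW n N := by
  induction N generalizing w with
  | zero =>
    have : w = [] := List.length_eq_zero_iff.mp (by omega)
    simp [this, allW]
  | succ N ih =>
    rcases w with _ | ⟨i, w⟩
    · simp [allW]
    · unfold allW
      refine List.mem_cons_of_mem _ (List.mem_flatMap.mpr ⟨w, ?_, ?_⟩)
      · exact ih (by simpa using h) (fun j hj => hw j (List.mem_cons_of_mem _ hj))
      · exact List.mem_map.mpr ⟨i, List.mem_range.mpr (hw i List.mem_cons_self), rfl⟩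

theorem primrec_allW : Primrec₂ allW := by
  have h : Primrec (fun p : ℕ × ℕ => (Nat.rec (motive := fun _ => List (List ℕ)) [[]]
      (fun _ IH => [] :: IH.flatMap (fun w => (List.range p.1).map (fun i => i :: w))) p.2)) := by
    have h3 : Primrec₂ (fun (q : ((ℕ × ℕ) × (ℕ × List (List ℕ))) × List ℕ) (i : ℕ) =>
        i :: q.2) := Primrec.list_cons.comp Primrec.snd (Primrec.snd.comp Primrec.fst)
    have h4 : Primrec₂ (fun (q : (ℕ × ℕ) × (ℕ × List (List ℕ))) (w : List ℕ) =>
        (List.range q.1.1).map (fun i => i :: w)) :=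
      Primrec.list_map (Primrec.list_range.comp
        (Primrec.fst.comp (Primrec.fst.comp Primrec.fst))) h3
    have h5 : Primrec (fun (q : (ℕ × ℕ) × (ℕ × List (List ℕ))) =>
        q.2.2.flatMap (fun w => (List.range q.1.1).map (fun i => i :: w))) :=
      Primrec.list_flatMap (Primrec.snd.comp Primrec.snd) h4
    have h6 : Primrec₂ (fun (p : ℕ × ℕ) (q : ℕ × List (List ℕ)) =>
        ([] : List ℕ) :: q.2.flatMap (fun w => (List.range p.1).map (fun i => i :: w))) :=
      Primrec.list_cons.comp (Primrec.const ([] : List ℕ)) h5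
    exact Primrec.nat_rec' (f := fun p : ℕ × ℕ => p.2) (g := fun _ => ([[]] : List (List ℕ)))
      Primrec.snd (Primrec.const _) h6
  have h7 : Primrec (fun p : ℕ × ℕ => allW p.1 p.2) := by
   refine h.of_eq fun p => ?_
   rcases p with ⟨n, N⟩
   show (Nat.rec (motive := fun _ => List (List ℕ)) [[]]
      (fun _ IH => [] :: IH.flatMap (fun w => (List.range n).map (fun i => i :: w))) N) = allW n N
   induction N with
   | zero => rfl
   | succ N ih => simp only [ih]; rfl
  exact h7

theorem primrec_pow : Primrec₂ (fun a b : ℕ => a ^ b) :=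
  Primrec₂.unpaired'.1 Nat.Primrec.pow

/-- the bound -/
def bnd (C m r L : ℕ) : ℕ := 3 * 2 ^ (4 * (m * (m * (2 * r + 1) ^ (3 * (C * L) + 2))))

theorem primrec_bnd (C m r : ℕ) : Primrec (bnd C m r) := by
  unfold bnd
  have h1 : Primrec (fun L : ℕ => 3 * (C * L) + 2) :=
    Primrec.nat_add.comp (Primrec.nat_mul.comp (Primrec.const 3)
      (Primrec.nat_mul.comp (Primrec.const C) Primrec.id)) (Primrec.const 2)
  have h2 : Primrec (fun L : ℕ => (2 * r + 1) ^ (3 * (C * L) + 2)) :=
    primrec_pow.comp (Primrec.const (2 * r + 1)) h1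
  have h3 : Primrec (fun L : ℕ => 4 * (m * (m * (2 * r + 1) ^ (3 * (C * L) + 2)))) :=
    Primrec.nat_mul.comp (Primrec.const 4) (Primrec.nat_mul.comp (Primrec.const m)
      (Primrec.nat_mul.comp (Primrec.const m) h2))
  exact Primrec.nat_mul.comp (Primrec.const 3) (primrec_pow.comp (Primrec.const 2) h3)

theorem primrec_reduce (n : ℕ) : Primrec (FreeGroup.reduce (α := Fin n)) := by
  have h : (FreeGroup.reduce (α := Fin n)) = fun L => L.foldr (fun hd1 ih =>
      List.casesOn ih [hd1] fun hd2 tl2 =>
        if hd1.1 = hd2.1 ∧ hd1.2 = not hd2.2 then tl2 else hd1 :: hd2 :: tl2) [] := by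
    funext L
    induction L with
    | nil => rfl
    | cons x xs ih =>
      rw [List.foldr_cons, ← ih]
      rfl
  rw [h]
  have hh : Primrec₂ (fun (a : List (Fin n × Bool) × ((Fin n × Bool) × List (Fin n × Bool)))
      (b : (Fin n × Bool) × List (Fin n × Bool)) =>
      if a.2.1.1 = b.1.1 ∧ a.2.1.2 = (!b.1.2) then b.2 else a.2.1 :: b.1 :: b.2) := by
    refine Primrec.ite ?_ ?_ ?_
    · refine PrimrecPred.and ?_ ?_
      · exact Primrec.eq.comp (Primrec.fst.comp (Primrec.fst.comp (Primrec.snd.comp Primrec.fst)))
          (Primrec.fst.comp (Primrec.fst.comp Primrec.snd))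
      · exact Primrec.eq.comp (Primrec.snd.comp (Primrec.fst.comp (Primrec.snd.comp Primrec.fst)))
          (Primrec.not.comp (Primrec.snd.comp (Primrec.fst.comp Primrec.snd)))
    · exact Primrec.snd.comp Primrec.snd
    · exact Primrec.list_cons.comp (Primrec.fst.comp (Primrec.snd.comp Primrec.fst))
        (Primrec.list_cons.comp (Primrec.fst.comp Primrec.snd) (Primrec.snd.comp Primrec.snd))
  refine Primrec.list_foldr (f := fun l : List (Fin n × Bool) => l)
    (g := fun _ => ([] : List (Fin n × Bool)))
    (h := fun _ (p : (Fin n × Bool) × List (Fin n × Bool)) => (List.casesOn p.2 [p.1]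
      fun hd2 tl2 => if p.1.1 = hd2.1 ∧ p.1.2 = not hd2.2 then tl2 else p.1 :: hd2 :: tl2 :
        List (Fin n × Bool)))
      Primrec.id (Primrec.const []) ?_
  exact Primrec.list_casesOn (f := fun a : List (Fin n × Bool) ×
      ((Fin n × Bool) × List (Fin n × Bool)) => a.2.2)
    (Primrec.snd.comp Primrec.snd)
    (Primrec.list_cons.comp (Primrec.fst.comp Primrec.snd) (Primrec.const [])) hh

end Comp

section WPH

variable {H : Type} [Group H] (F : Subgroup H) {r m d : ℕ} (e : F ≃* FreeGroup (Fin r))
  (eq : Q F ≃ Fin m) (g : Fin d → H)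

/-- transition table -/
noncomputable def nx (s : Fin m × (Fin d × Bool)) : Fin m :=
  eq (cls F (tr F (eq.symm s.1) * cond s.2.2 (g s.2.1) (g s.2.1)⁻¹))

/-- output table -/
noncomputable def ot (s : Fin m × (Fin d × Bool)) : List (Fin r × Bool) :=
  (co F e (tr F (eq.symm s.1) * cond s.2.2 (g s.2.1) (g s.2.1)⁻¹)).toWord

/-- run of the transducer -/
noncomputable def run (w : List (Fin d × Bool)) : Fin m × List (Fin r × Bool) :=
  w.foldl (fun s p => (nx F eq g (s.1, p), s.2 ++ ot F e eq g (s.1, p))) (eq (cls F 1), [])

theorem run_spec (w : List (Fin d × Bool)) :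
    (run F e eq g w).1 = eq (cls F (tr F (cls F 1) * sv g w)) ∧
    FreeGroup.mk (run F e eq g w).2 = co F e (tr F (cls F 1) * sv g w) := by
  induction w using List.reverseRecOn with
  | nil =>
    constructor
    · simp [run, cls_tr]
    · simp [run, co_tr, FreeGroup.one_eq_mk]
  | append_singleton w p ih =>
    obtain ⟨h1, h2⟩ := ih
    have h3 : run F e eq g (w ++ [p]) = (nx F eq g ((run F e eq g w).1, p),
        (run F e eq g w).2 ++ ot F e eq g ((run F e eq g w).1, p)) := by
      unfold run
      rw [List.foldl_append]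
      rfl
    have h4 : sv g [p] = cond p.2 (g p.1) (g p.1)⁻¹ := by simp [sv]
    rw [h3]
    constructor
    · simp only [nx]
      rw [h1, Equiv.symm_apply_apply, sv_append, ← mul_assoc, ← h4, ← cls_step]
    · simp only [ot]
      rw [← FreeGroup.mul_mk, h2, FreeGroup.mk_toWord, h1, Equiv.symm_apply_apply, sv_append,
        ← mul_assoc, ← h4, ← co_step]

theorem primrec_run : Primrec (run F e eq g) := by
  unfold run
  refine Primrec.list_foldl (f := fun w : List (Fin d × Bool) => w)
    (g := fun _ => ((eq (cls F 1), []) : Fin m × List (Fin r × Bool)))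
    (h := fun _ (q : (Fin m × List (Fin r × Bool)) × (Fin d × Bool)) =>
      (nx F eq g (q.1.1, q.2), q.1.2 ++ ot F e eq g (q.1.1, q.2))) Primrec.id
      (Primrec.const _) ?_
  have h1 : Primrec (fun a : List (Fin d × Bool) × ((Fin m × List (Fin r × Bool)) ×
      (Fin d × Bool)) => ((a.2.1.1, a.2.2) : Fin m × (Fin d × Bool))) :=
    Primrec.pair (Primrec.fst.comp (Primrec.fst.comp Primrec.snd)) (Primrec.snd.comp Primrec.snd)
  exact (Primrec.pair ((Primrec.dom_finite (nx F eq g)).comp h1)
    (Primrec.list_append.comp (Primrec.snd.comp (Primrec.fst.comp Primrec.snd))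
      ((Primrec.dom_finite (ot F e eq g)).comp h1))).to₂

theorem sv_eq_one_iff (w : List (Fin d × Bool)) : sv g w = 1 ↔
    ((run F e eq g w).1 = eq (cls F 1) ∧ FreeGroup.reduce (run F e eq g w).2 = []) := by
  obtain ⟨h1, h2⟩ := run_spec F e eq g w
  have h3 : FreeGroup.reduce (run F e eq g w).2 = [] ↔
      co F e (tr F (cls F 1) * sv g w) = 1 := by
    rw [← h2, ← FreeGroup.toWord_mk, FreeGroup.toWord_eq_nil_iff]
  rw [h3, h1, eq.apply_eq_iff_eq]
  constructor
  · intro h
    rw [h, mul_one, cls_tr, co_tr]
    exact ⟨rfl, rfl⟩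
  · rintro ⟨h4, h5⟩
    have h6 := co_eq_iff F e (tr F (cls F 1) * sv g w)
    rw [h5, h4] at h6
    simp only [map_one, OneMemClass.coe_one, one_mul] at h6
    exact (mul_eq_left.mp h6.symm)

include F e eq in
theorem wpH : ComputablePred (fun w : List (Fin d × Bool) => sv g w = 1) := by
  have h : PrimrecPred (fun w : List (Fin d × Bool) =>
      (run F e eq g w).1 = eq (cls F 1) ∧ FreeGroup.reduce (run F e eq g w).2 = []) := by
    refine PrimrecPred.and ?_ ?_
    · exact Primrec.eq.comp (Primrec.fst.comp (primrec_run F e eq g)) (Primrec.const _)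
    · exact Primrec.eq.comp ((primrec_reduce r).comp (Primrec.snd.comp (primrec_run F e eq g)))
        (Primrec.const _)
  exact (h.of_eq fun w => (sv_eq_one_iff F e eq g w).symm).computablePred

variable [Fintype (Q F)]

/-- bound for the lengths of the generators -/
noncomputable def CC : ℕ := Finset.univ.sup (fun i : Fin d => lam F e (g i))

theorem lam_one : lam F e 1 = 0 := by
  unfold lam
  rw [← Nat.le_zero]
  apply Finset.sup_le
  intro a _
  rw [mul_one, co_tr]
  simp

theorem lam_sv (w : List (Fin d × Bool)) : lam F e (sv g w) ≤ CC F e g * w.length := by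
  induction w with
  | nil => rw [sv_nil, lam_one]; omega
  | cons p w ih =>
    rw [sv_cons, List.length_cons]
    refine (lam_mul F e _ _).trans ?_
    have h1 : lam F e (cond p.2 (g p.1) (g p.1)⁻¹) ≤ CC F e g := by
      have h2 : lam F e (g p.1) ≤ CC F e g :=
        Finset.le_sup (f := fun i : Fin d => lam F e (g i)) (Finset.mem_univ p.1)
      cases p.2
      · simp only [cond_false]
        rw [lam_inv]; exact h2
      · exact h2
    calc _ ≤ CC F e g + CC F e g * w.length := Nat.add_le_add h1 ih
      _ = _ := by ring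

end WPH

section Main

variable {H G : Type} [Group H] [Group G] {d : ℕ} {α : Type}

/-- first component of an entry -/
def e1 (inp : List (List (Fin d × Bool) × List (α × Bool))) (i : ℕ) : List (Fin d × Bool) :=
  ((inp[i]?).map Prod.fst).getD []
/-- second component of an entry -/
def e2 (inp : List (List (Fin d × Bool) × List (α × Bool))) (i : ℕ) : List (α × Bool) :=
  ((inp[i]?).map Prod.snd).getD []

/-- the word `u v⁻¹` in the first group -/
def w1 (inp : List (List (Fin d × Bool) × List (α × Bool))) (u v : List ℕ) :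
    List (Fin d × Bool) := u.flatMap (e1 inp) ++ invw (v.flatMap (e1 inp))
/-- the word `u v⁻¹` in the second group -/
def w2 (inp : List (List (Fin d × Bool) × List (α × Bool))) (u v : List ℕ) :
    List (α × Bool) := u.flatMap (e2 inp) ++ invw (v.flatMap (e2 inp))

theorem sv_flatMap {σ τ : Type} (g : σ → H) (f : τ → List (σ × Bool)) (u : List τ) :
    sv g (u.flatMap f) = pv (fun i => sv g (f i)) u := by
  induction u with
  | nil => rfl
  | cons i u ih => rw [List.flatMap_cons, sv_append, ih, pv_cons]

theorem sv_w1 (g : Fin d → H) (inp : List (List (Fin d × Bool) × List (α × Bool)))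
    (u v : List ℕ) : sv g (w1 inp u v) = 1 ↔
      pv (fun i => sv g (e1 inp i)) u = pv (fun i => sv g (e1 inp i)) v := by
  unfold w1
  rw [sv_append, sv_invw, sv_flatMap, sv_flatMap, mul_inv_eq_one]

theorem sv_w2 (y : α → G) (inp : List (List (Fin d × Bool) × List (α × Bool)))
    (u v : List ℕ) : sv y (w2 inp u v) = 1 ↔
      pv (fun i => sv y (e2 inp i)) u = pv (fun i => sv y (e2 inp i)) v := by
  unfold w2
  rw [sv_append, sv_invw, sv_flatMap, sv_flatMap, mul_inv_eq_one]

variable [Primcodable α]

theorem primrec_invw {β : Type} [Primcodable β] :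
    Primrec (invw : List (β × Bool) → List (β × Bool)) := by
  unfold invw
  exact Primrec.list_reverse.comp (Primrec.list_map Primrec.id
    ((Primrec.pair (Primrec.fst.comp Primrec.snd)
      (Primrec.not.comp (Primrec.snd.comp Primrec.snd))).to₂))

theorem primrec_e1 : Primrec₂ (e1 (d := d) (α := α)) := by
  unfold e1
  exact Primrec.option_getD.comp (Primrec.option_map
    (Primrec.list_getElem?.comp Primrec.fst Primrec.snd)
      (Primrec.fst.comp Primrec.snd).to₂) (Primrec.const [])

theorem primrec_e2 : Primrec₂ (e2 (d := d) (α := α)) := by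
  unfold e2
  exact Primrec.option_getD.comp (Primrec.option_map
    (Primrec.list_getElem?.comp Primrec.fst Primrec.snd)
      (Primrec.snd.comp Primrec.snd).to₂) (Primrec.const [])

theorem primrec_w1 : Primrec (fun q : List (List (Fin d × Bool) × List (α × Bool)) ×
    (List ℕ × List ℕ) => w1 q.1 q.2.1 q.2.2) := by
  unfold w1
  refine Primrec.list_append.comp ?_ (primrec_invw.comp ?_)
  · exact Primrec.list_flatMap (Primrec.fst.comp Primrec.snd)
      (primrec_e1.comp (Primrec.fst.comp Primrec.fst) Primrec.snd).to₂
  · exact Primrec.list_flatMap (Primrec.snd.comp Primrec.snd)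
      (primrec_e1.comp (Primrec.fst.comp Primrec.fst) Primrec.snd).to₂

theorem primrec_w2 : Primrec (fun q : List (List (Fin d × Bool) × List (α × Bool)) ×
    (List ℕ × List ℕ) => w2 q.1 q.2.1 q.2.2) := by
  unfold w2
  refine Primrec.list_append.comp ?_ (primrec_invw.comp ?_)
  · exact Primrec.list_flatMap (Primrec.fst.comp Primrec.snd)
      (primrec_e2.comp (Primrec.fst.comp Primrec.fst) Primrec.snd).to₂
  · exact Primrec.list_flatMap (Primrec.snd.comp Primrec.snd)
      (primrec_e2.comp (Primrec.fst.comp Primrec.fst) Primrec.snd).to₂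

/-- total length of the first components -/
def totL (inp : List (List (Fin d × Bool) × List (α × Bool))) : ℕ :=
  (inp.flatMap Prod.fst).length

theorem primrec_totL : Primrec (totL (d := d) (α := α)) :=
  Primrec.list_length.comp (Primrec.list_flatMap Primrec.id (Primrec.fst.comp Primrec.snd).to₂)

/-- the bounded test -/
def Test (C m r : ℕ) (g : Fin d → H) (y : α → G)
    (inp : List (List (Fin d × Bool) × List (α × Bool))) : Prop :=
  ∀ u ∈ allW inp.length (bnd C m r (totL inp)), ∀ v ∈ allW inp.length (bnd C m r (totL inp)),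
    sv g (w1 inp u v) = 1 → sv y (w2 inp u v) = 1

theorem computable_Test (C m r : ℕ) (g : Fin d → H) (y : α → G)
    (hH : ComputablePred (fun w : List (Fin d × Bool) => sv g w = 1))
    (hG : ComputablePred (fun w : List (α × Bool) => sv y w = 1)) :
    ComputablePred (Test C m r g y) := by
  obtain ⟨fH, hfH, eH⟩ := ComputablePred.computable_iff.1 hH
  obtain ⟨fG, hfG, eG⟩ := ComputablePred.computable_iff.1 hG
  rw [ComputablePred.computable_iff]
  have hl : Computable (fun inp : List (List (Fin d × Bool) × List (α × Bool)) =>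
      allW inp.length (bnd C m r (totL inp))) :=
    (primrec_allW.comp Primrec.list_length ((primrec_bnd C m r).comp primrec_totL)).to_comp
  refine ⟨fun inp => (allW inp.length (bnd C m r (totL inp))).all (fun u =>
    (allW inp.length (bnd C m r (totL inp))).all (fun v =>
      !(fH (w1 inp u v)) || fG (w2 inp u v))), ?_, ?_⟩
  · refine computable_all hl ?_
    refine (computable_all (l := fun q : List (List (Fin d × Bool) × List (α × Bool)) ×
      List ℕ => allW q.1.length (bnd C m r (totL q.1))) (P := fun q v =>
        !(fH (w1 q.1 q.2 v)) || fG (w2 q.1 q.2 v)) (hl.comp Computable.fst) ?_).to₂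
    have h1 : Computable (fun q : (List (List (Fin d × Bool) × List (α × Bool)) × List ℕ) ×
        List ℕ => ((q.1.1, (q.1.2, q.2)) : List (List (Fin d × Bool) × List (α × Bool)) ×
          (List ℕ × List ℕ))) :=
      (Primrec.pair (Primrec.fst.comp Primrec.fst)
        (Primrec.pair (Primrec.snd.comp Primrec.fst) Primrec.snd)).to_comp
    exact (Primrec.or.to_comp.comp
      (Primrec.not.to_comp.comp (hfH.comp (primrec_w1.to_comp.comp h1)))
      (hfG.comp (primrec_w2.to_comp.comp h1))).to₂
  · funext inp
    have hH' : ∀ w, sv g w = 1 ↔ fH w = true := fun w => iff_of_eq (congrFun eH w)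
    have hG' : ∀ w, sv y w = 1 ↔ fG w = true := fun w => iff_of_eq (congrFun eG w)
    apply propext
    unfold Test
    rw [List.all_eq_true]
    refine forall₂_congr fun u _ => ?_
    rw [List.all_eq_true]
    refine forall₂_congr fun v _ => ?_
    rw [hH', hG']
    cases fH (w1 inp u v) <;> cases fG (w2 inp u v) <;> simp

/-- The homomorphism extends. -/
def Ext (g : Fin d → H) (y : α → G) (inp : List (List (Fin d × Bool) × List (α × Bool))) :
    Prop :=
  ∃ Φ : Submonoid.closure {h : H | ∃ p ∈ inp, h = sv g p.1} →* G,
    ∀ (p : List (Fin d × Bool) × List (α × Bool)) (hp : p ∈ inp),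
      Φ ⟨sv g p.1, Submonoid.subset_closure ⟨p, hp, rfl⟩⟩ = sv y p.2

omit [Primcodable α] in
theorem ext_iff (g : Fin d → H) (y : α → G)
    (inp : List (List (Fin d × Bool) × List (α × Bool))) : Ext g y inp ↔
    ∀ u v : List (Fin inp.length), pv (fun i => sv g (inp[i]).1) u = pv (fun i => sv g (inp[i]).1) v
      → pv (fun i => sv y (inp[i]).2) u = pv (fun i => sv y (inp[i]).2) v := by
  set M := Submonoid.closure {h : H | ∃ p ∈ inp, h = sv g p.1} with hM
  have hmem : ∀ u : List (Fin inp.length), pv (fun i => sv g (inp[i]).1) u ∈ M := by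
    intro u
    induction u with
    | nil => exact one_mem _
    | cons i u ih =>
      rw [pv_cons]
      exact mul_mem (Submonoid.subset_closure ⟨inp[i], List.getElem_mem _, rfl⟩) ih
  constructor
  · rintro ⟨Φ, hΦ⟩
    have key : ∀ u : List (Fin inp.length),
        Φ ⟨pv (fun i => sv g (inp[i]).1) u, hmem u⟩ = pv (fun i => sv y (inp[i]).2) u := by
      intro u
      induction u with
      | nil => exact map_one Φ
      | cons i u ih =>
        have e0 : (⟨pv (fun i => sv g (inp[i]).1) (i :: u), hmem (i :: u)⟩ : M) =
            ⟨sv g (inp[i]).1, Submonoid.subset_closure ⟨inp[i], List.getElem_mem _, rfl⟩⟩ *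
            ⟨pv (fun i => sv g (inp[i]).1) u, hmem u⟩ :=
          Subtype.ext (pv_cons (fun i : Fin inp.length => sv g (inp[i]).1) i u)
        have e3 : Φ ⟨pv (fun i => sv g (inp[i]).1) (i :: u), hmem (i :: u)⟩ =
            Φ ⟨sv g (inp[i]).1, Submonoid.subset_closure ⟨inp[i], List.getElem_mem _, rfl⟩⟩ *
            Φ ⟨pv (fun i => sv g (inp[i]).1) u, hmem u⟩ := by
          rw [← map_mul]
          exact congrArg Φ e0
        rw [e3, ih, hΦ (inp[i]) (List.getElem_mem _), pv_cons]
    intro u v h
    rw [← key u, ← key v]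
    congr 1
    exact Subtype.ext h
  · intro h
    have hex : ∀ m : M, ∃ u : List (Fin inp.length), pv (fun i => sv g (inp[i]).1) u = m.1 := by
      rintro ⟨m, hm⟩
      induction hm using Submonoid.closure_induction with
      | mem x hx =>
        obtain ⟨p, hp, rfl⟩ := hx
        obtain ⟨i, hi, rfl⟩ := List.getElem_of_mem hp
        exact ⟨[⟨i, hi⟩], by simp [pv]⟩
      | one => exact ⟨[], rfl⟩
      | mul x y _ _ hx hy =>
        obtain ⟨u, hu⟩ := hx
        obtain ⟨v, hv⟩ := hy
        exact ⟨u ++ v, by rw [pv_append, hu, hv]⟩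
    choose f hf using hex
    refine ⟨⟨⟨fun m => pv (fun i => sv y (inp[i]).2) (f m), ?_⟩, ?_⟩, ?_⟩
    · rw [h (f 1) [] (by rw [hf]; rfl)]
      rfl
    · intro a b
      show pv _ (f (a * b)) = pv _ (f a) * pv _ (f b)
      rw [← pv_append]
      apply h
      rw [hf, pv_append, hf, hf]
      rfl
    · intro p hp
      obtain ⟨i, hi, rfl⟩ := List.getElem_of_mem hp
      show pv _ (f _) = _
      rw [h (f _) [⟨i, hi⟩] (by rw [hf]; simp [pv])]
      simp [pv]

omit [Primcodable α] in
theorem test_iff (F : Subgroup H) {r : ℕ} (e : F ≃* FreeGroup (Fin r)) [Fintype (Q F)]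
    (g : Fin d → H) (y : α → G)
    (inp : List (List (Fin d × Bool) × List (α × Bool))) :
    Test (CC F e g) (Fintype.card (Q F)) r g y inp ↔ Ext g y inp := by
  rw [ext_iff]
  set x' : Fin inp.length → H := fun i => sv g (inp[i]).1 with hx'
  set y' : Fin inp.length → G := fun i => sv y (inp[i]).2 with hy'
  have ex : ∀ u : List (Fin inp.length), pv x' u = pv (fun i => sv g (e1 inp i)) (u.map Fin.val) := by
    intro u
    induction u with
    | nil => rfl
    | cons i u ih =>
      rw [pv_cons, List.map_cons, pv_cons, ih]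
      congr 1
      simp [hx', e1]
  have ey : ∀ u : List (Fin inp.length), pv y' u = pv (fun i => sv y (e2 inp i)) (u.map Fin.val) := by
    intro u
    induction u with
    | nil => rfl
    | cons i u ih =>
      rw [pv_cons, List.map_cons, pv_cons, ih]
      congr 1
      simp [hy', e2]
  constructor
  · intro h u v huv
    set N := bnd (CC F e g) (Fintype.card (Q F)) r (totL inp) with hN
    have hrel : Rel x' y' N := by
      intro u v hu hv e
      have hu' : u.map Fin.val ∈ allW inp.length N :=
        mem_allW (by simpa using hu) (by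
          intro i hi
          obtain ⟨j, _, rfl⟩ := List.mem_map.mp hi
          exact j.2)
      have hv' : v.map Fin.val ∈ allW inp.length N :=
        mem_allW (by simpa using hv) (by
          intro i hi
          obtain ⟨j, _, rfl⟩ := List.mem_map.mp hi
          exact j.2)
      have h1 := h _ hu' _ hv'
      rw [sv_w1, sv_w2, ← ex, ← ex, ← ey, ← ey] at h1
      exact h1 e
    set ℓ := CC F e g * totL inp with hℓ
    have hlam : ∀ i, lam F e (x' i) ≤ ℓ := by
      intro i
      refine (lam_sv F e g _).trans (Nat.mul_le_mul_left _ ?_)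
      unfold totL
      rw [List.length_flatMap]
      exact List.single_le_sum (by simp) _ (List.mem_map.mpr ⟨inp[i], List.getElem_mem _, rfl⟩)
    refine test_set hrel (BallF F e (3 * ℓ + 2)) ?_ ?_ ?_ u v huv
    · rw [mem_BallF]
      exact one_mem_Ball F e _
    · exact ball_splits F e x' ℓ _ hlam le_rfl
    · have h1 := card_BallF F e (3 * ℓ + 2)
      rw [Fintype.card_fin] at h1
      rw [hN, bnd]
      exact Nat.mul_le_mul_left _ (Nat.pow_le_pow_right (by norm_num)
        (Nat.mul_le_mul_left _ h1))
  · intro h u hu v hv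
    -- words in letters below the length come from words over `Fin`
    have hlt : ∀ {N : ℕ} {w : List ℕ}, w ∈ allW inp.length N → ∀ i ∈ w, i < inp.length := by
      intro N
      induction N with
      | zero =>
        intro w hw
        simp only [allW, List.mem_singleton] at hw
        subst hw
        simp
      | succ N ih =>
        intro w hw
        simp only [allW, List.mem_cons, List.mem_flatMap, List.mem_map, List.mem_range] at hw
        rcases hw with rfl | ⟨w', hw', i, hi, rfl⟩
        · simp
        · intro j hj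
          rcases List.mem_cons.mp hj with rfl | hj
          · exact hi
          · exact ih hw' j hj
    have lift : ∀ w : List ℕ, (∀ i ∈ w, i < inp.length) →
        ∃ w' : List (Fin inp.length), w'.map Fin.val = w := by
      intro w
      induction w with
      | nil => intro _; exact ⟨[], rfl⟩
      | cons i w ih =>
        intro hw
        obtain ⟨w', hw'⟩ := ih (fun j hj => hw j (List.mem_cons_of_mem _ hj))
        exact ⟨⟨i, hw i List.mem_cons_self⟩ :: w', by simp [hw']⟩
    obtain ⟨u', rfl⟩ := lift u (hlt hu)
    obtain ⟨v', rfl⟩ := lift v (hlt hv)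
    rw [sv_w1, sv_w2, ← ex, ← ex, ← ey, ← ey]
    exact h u' v'

theorem finite_of_fg_freeGroup (α : Type*) [h : Group.FG (FreeGroup α)] : Finite α := by
  have h1 : Group.FG (Abelianization (FreeGroup α)) :=
    Group.fg_of_surjective (f := Abelianization.of) QuotientGroup.mk_surjective
  have h2 : AddGroup.FG (FreeAbelianGroup α) := by
    have : AddGroup.FG (Additive (Abelianization (FreeGroup α))) := GroupFG.iff_add_fg.1 h1
    exact this
  have h3 : Module.Finite ℤ (FreeAbelianGroup α) := Module.Finite.iff_addGroup_fg.2 h2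
  exact Module.Finite.finite_basis (FreeAbelianGroup.basis α)

theorem exists_equiv_freeGroup (B : Type) [Group B] [IsFreeGroup B] [Group.FG B] :
    ∃ (r : ℕ), Nonempty (B ≃* FreeGroup (Fin r)) := by
  let e := IsFreeGroup.toFreeGroup B
  have h1 : Group.FG (FreeGroup (IsFreeGroup.Generators B)) :=
    Group.fg_of_surjective (f := e.toMonoidHom) e.surjective
  have h2 := finite_of_fg_freeGroup (IsFreeGroup.Generators B)
  obtain ⟨r, ⟨f⟩⟩ := Finite.exists_equiv_fin (IsFreeGroup.Generators B)
  exact ⟨r, ⟨((FreeGroup.freeGroupCongr f.symm).trans e.symm).symm⟩⟩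

/-- **Main theorem.** -/
theorem decidable (g : Fin d → H) (hg : Subgroup.closure (Set.range g) = ⊤)
    (F : Subgroup H) (hF : F.FiniteIndex) (hfree : IsFreeGroup F) (y : α → G)
    (hG : ComputablePred (fun w : List (α × Bool) => sv y w = 1)) :
    ComputablePred (Ext g y) := by
  have hHfg : Group.FG H := Group.fg_iff.mpr ⟨Set.range g, hg, Set.finite_range g⟩
  have hFfg : Group.FG F := inferInstance
  obtain ⟨r, ⟨e⟩⟩ := exists_equiv_freeGroup F
  have hfin : Finite (Q F) := by
    have h1 : Finite (H ⧸ F) := inferInstance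
    exact Finite.of_equiv _ (QuotientGroup.quotientRightRelEquivQuotientLeftRel F).symm
  have := Fintype.ofFinite (Q F)
  have h1 := computable_Test (CC F e g) (Fintype.card (Q F)) r g y
    (wpH F e (Fintype.equivFin (Q F)) g) hG
  exact h1.of_eq (fun inp => test_iff F e g y inp)

end Main

end Pool.Agent.V1119.VF
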